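import Pool.Agent.Q88.MF.Stm
set_option autoImplicit false
open Set MeasureTheory Filter Topology
open scoped ContDiff ENNReal NNReal
noncomputable section
namespace Pool.Agent.Q186.MF

theorem box_vol (d : ℕ) (A B : ℝ) (hA : 0 ≤ A) (hB : 0 ≤ B) :
    volume {x : EuclideanSpace ℝ (Fin (d + 1)) | |x 0| ≤ A ∧ ‖(fun i : Fin d => x i.succ)‖ ≤ B} ≤
      ENNReal.ofReal (2 * A * (2 * B) ^ d) := by
  have hset : {x : EuclideanSpace ℝ (Fin (d + 1)) | |x 0| ≤ A ∧ ‖(fun i : Fin d => x i.succ)‖ ≤ B} =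
      (fun x : EuclideanSpace ℝ (Fin (d + 1)) => x.ofLp) ⁻¹'
        (Set.pi univ (Fin.cons (Icc (-A) A) (fun _ : Fin d => Icc (-B) B) :
          Fin (d + 1) → Set ℝ)) := by
    ext x
    simp only [mem_ofPred_eq, mem_preimage, Set.mem_pi, mem_univ, forall_true_left,
      Fin.forall_fin_succ, Fin.cons_zero, Fin.cons_succ, mem_Icc, ← abs_le]
    rw [pi_norm_le_iff_of_nonneg hB]
    simp only [Real.norm_eq_abs]
  rw [hset]
  have hms : ∀ i, MeasurableSet ((Fin.cons (Icc (-A) A) (fun _ : Fin d => Icc (-B) B) :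
          Fin (d + 1) → Set ℝ) i) := by
    intro i
    refine Fin.cases ?_ (fun j => ?_) i
    · simp only [Fin.cons_zero]; exact measurableSet_Icc
    · simp only [Fin.cons_succ]; exact measurableSet_Icc
  rw [(PiLp.volume_preserving_ofLp (Fin (d+1))).measure_preimage
    (MeasurableSet.univ_pi hms).nullMeasurableSet]
  rw [volume_pi_pi, Fin.prod_univ_succ]
  simp only [Fin.cons_zero, Fin.cons_succ, Real.volume_Icc, Finset.prod_const, Finset.card_univ,
    Fintype.card_fin]
  rw [← ENNReal.ofReal_pow (by linarith), ← ENNReal.ofReal_mul (by linarith)]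
  apply le_of_eq
  congr 2 <;> ring

end Pool.Agent.Q186.MF

namespace Pool.Agent.Q88.MF

theorem box : S_box := fun d A B hA hB => Pool.Agent.Q186.MF.box_vol d A B hA hB

end Pool.Agent.Q88.MF
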